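import Pool.Agent.W734.STB.Stms
import Pool.Agent.W395.TWB.Block

/-!
# STB-T3: three particles in a box
-/

set_option autoImplicit false

noncomputable section

namespace Pool.Agent.W55.STB

open MeasureTheory Set Filter Metric
open Pool.Agent.W734.TWB Pool.Agent.W734.STB

lemma admW_zero : AdmW (fun _ : E3 => (0 : ℝ)) where
  meas := measurable_const
  even := fun _ => rfl
  nonneg := fun _ => le_refl 0
  bdd := ⟨0, fun _ => le_refl 0⟩
  supp := HasCompactSupport.zero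

theorem t3 (hF : S_FNL) (hB : S_B2P) : S_T3 := by
  intro V hV hV0
  have hb2 : 0 < b2 V := hB V hV hV0
  have hb1 : 0 ≤ b1 (fun _ : E3 => (0 : ℝ)) := Pool.Agent.W395.TWB.b1_nonneg admW_zero
  obtain ⟨s0, hs0, h⟩ := hF (fun _ => 0) V admW_zero hV 3 (1 / 2) (by norm_num)
  refine ⟨b2 V / 2, s0, by positivity, hs0, ?_⟩
  intro N lam hN hlam hsl a F hFc
  have hNR : (0 : ℝ) < N := by exact_mod_cast hN
  have hNR1 : (1 : ℝ) ≤ N := by exact_mod_cast hN
  have hn0 : (0 : ℝ) < N * lam ^ 3 := by positivity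
  have hell : ell (N * lam ^ 3) N = lam := by
    have h0 := Pool.Agent.W395.TWB.ell_pos hn0 hN
    have h1 := Pool.Agent.W395.TWB.ell_cube hn0 hN
    have h2 : (N : ℝ) * lam ^ 3 / N = lam ^ 3 := by field_simp
    rw [h2] at h1
    exact (pow_left_inj₀ h0.le hlam.le (by norm_num)).1 h1
  have hs : s0 ≤ N * ell (N * lam ^ 3) N := by
    rw [hell]
    refine hsl.trans (mul_le_mul_of_nonneg_right ?_ hlam.le)
    rw [Real.sqrt_le_left hNR.le]
    nlinarith
  have hr : s0 ≤ Real.sqrt N * ell (N * lam ^ 3) N := by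
    rw [hell]; exact hsl
  have hsc := Pool.Agent.W395.TWB.scaled (fun _ => 0) V hn0 3 h hN hs hr a F hFc
  rw [hell] at hsc
  have hI0 : 0 ≤ ∫ x in box a lam 3, ‖F x‖ ^ 2 := integral_nonneg fun x => by positivity
  have hwt : ∀ x : Cfg 3, wt (fun _ => (1 : ℝ)) x = 1 := by
    intro x
    simp [wt]
  have hpair : ∀ x : Cfg 3, pairS (Wn N (fun _ => (0 : ℝ))) x = pairS (fun _ => (0 : ℝ)) x := by
    intro x
    simp [pairS, Wn]
  have e1 : ∫ x in box a lam 3, wt (fun _ => (1 : ℝ)) x * ‖F x‖ ^ 2 =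
      ∫ x in box a lam 3, ‖F x‖ ^ 2 := by
    simp only [hwt, one_mul]
  have e2 : ∫ x in box a lam 3, wt (fun _ => (1 : ℝ)) x *
      (kin F x + (pairS (fun _ => (0 : ℝ)) x + tripS (Vn N V) x) * ‖F x‖ ^ 2) =
      ∫ x in box a lam 3, (kin F x +
        Pool.Agent.W395.TWB.PP (fun _ => 0) V N x * ‖F x‖ ^ 2) := by
    simp only [hwt, one_mul, Pool.Agent.W395.TWB.PP, hpair]
  rw [e1, e2]
  refine le_trans (mul_le_mul_of_nonneg_right ?_ hI0) hsc
  unfold hh
  have h3 : ((3 : ℕ).choose 3 : ℝ) = 1 := by simp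
  have h4 : (0 : ℝ) ≤ ((3 : ℕ).choose 2 : ℝ) * b1 (fun _ : E3 => (0 : ℝ)) / (N * lam ^ 3) := by
    positivity
  have h5 : b2 V / 2 / ((N : ℝ) ^ 2 * lam ^ 6) = (1 - 1 / 2) * (1 * b2 V / (N * lam ^ 3) ^ 2) := by
    field_simp
    ring
  rw [h3, h5]
  nlinarith

end Pool.Agent.W55.STB
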